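import Pool.Agent.Y957.MC.Spec
import Pool.Agent.TH915.PW.Exp

/-!
# Exponential sums with a phase like `d log x` (project MC, job EXPG)
-/

set_option autoImplicit false

namespace Pool.Agent.Y614.MC

open Finset Filter
open Pool.Agent.H469R2.NK (e norm_e Av Av_le Cq Cq_pos iterate harm_le norm_sum_neg)
open Pool.Agent.TH915.PW (Hy SD SD_sq SD_le)
open Pool.Agent.Y957.MC

/-- The exponential sum bound for positive frequencies, with the harmonic factor. -/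
theorem exp_bound' {k : ℕ} {A B lo hi : ℝ} {φ : ℕ → ℝ → ℝ} (hlo : 0 < lo) (hhi : 0 ≤ hi) (θ : ℝ)
    (hθ : 0 < θ) (h : Hy k A B lo hi φ) (u : ℝ) (N L H : ℕ) (hN : 1 ≤ N) (hL : L ≤ N)
    (hu : A ≤ u) (huL : u + L ≤ B) (hH : 1 ≤ H) (hHN : H ≤ N)
    (hup : 2 * (θ * (hi * (H : ℝ) ^ k)) ≤ 1) :
    (‖∑ n ∈ range L, e (θ * φ 0 (u + n))‖ / N) ^ (2 ^ k) ≤
      Cq k * (1 / H + 2 / (θ * lo) / N * ((∑ l ∈ Ico 1 H, (1 : ℝ) / l) / H) ^ k) := by
  have hN' : (1 : ℝ) ≤ N := by exact_mod_cast hN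
  have hH' : (1 : ℝ) ≤ H := by exact_mod_cast hH
  have hL' : (L : ℝ) ≤ N := by exact_mod_cast hL
  have hHN' : (H : ℝ) ≤ N := by exact_mod_cast hHN
  have hstep : ∀ ls : List ℕ, (‖SD φ θ u L ls‖ / N) ^ 2 ≤
      2 / H + 4 * ((∑ l ∈ Ico 1 H, ‖SD φ θ u L (l :: ls)‖ / N) / H) := by
    intro ls
    have h := SD_sq φ θ u L H ls
    set Sg := ∑ l ∈ Ico 1 H, ‖SD φ θ u L (l :: ls)‖ with hSg
    have hSg0 : 0 ≤ Sg := sum_nonneg fun _ _ => norm_nonneg _
    have h2 : (H : ℝ) * ‖SD φ θ u L ls‖ ^ 2 ≤ (2 * N) * (N + 2 * Sg) := by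
      refine h.trans ?_
      have : (L : ℝ) + H ≤ 2 * N := by linarith
      gcongr
    rw [← sum_div, ← hSg]
    have e1 : 2 / (H : ℝ) + 4 * (Sg / N / H) = ((2 * N) * (N + 2 * Sg)) / (H * N ^ 2) := by
      field_simp
      ring
    rw [e1, div_pow, div_le_div_iff₀ (by positivity) (by positivity)]
    calc ‖SD φ θ u L ls‖ ^ 2 * (H * N ^ 2) = ((H : ℝ) * ‖SD φ θ u L ls‖ ^ 2) * N ^ 2 := by ring
      _ ≤ _ := by gcongr
  have hit := iterate hH (fun ls => ‖SD φ θ u L ls‖ / N) (fun ls => by positivity) hstep k []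
  have hSS : ∑ n ∈ range L, e (θ * φ 0 (u + n)) = SD φ θ u L [] := by
    unfold SD
    simp only [List.sum_nil, Nat.sub_zero]
    rfl
  rw [hSS]
  refine hit.trans ?_
  have hC := Cq_pos k
  gcongr
  have h1 := Av_le (H := H) (T := fun ls => ‖SD φ θ u L ls‖ / N)
    (κ := 2 / (θ * lo) / N) k (by
      intro ls hlen hent
      have hpos : 0 < ls.prod := List.prod_pos fun l hl => (hent l hl).1
      have hle : ls.prod ≤ H ^ k := by
        have := List.prod_le_pow_card ls H (fun l hl => (hent l hl).2.le)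
        rwa [hlen] at this
      have hle' : ((ls.prod : ℕ) : ℝ) ≤ (H : ℝ) ^ k := by exact_mod_cast hle
      have h1 := SD_le hlo θ hθ h u L hu huL ls hpos hlen (by
        refine le_trans ?_ hup
        gcongr)
      have hP : (0 : ℝ) < (ls.prod : ℕ) := by exact_mod_cast hpos
      calc ‖SD φ θ u L ls‖ / N ≤ (2 / (θ * lo * (ls.prod : ℕ))) / N := by
            gcongr
        _ = _ := by field_simp) k [] (by simp) (by simp)
  simpa using h1

/-- A natural number near the `k`-th root of a real number. -/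
theorem exists_root (k : ℕ) (hk : 1 ≤ k) (R : ℝ) (hR : 1 ≤ R) :
    ∃ H : ℕ, 1 ≤ H ∧ (H : ℝ) ^ k ≤ R ∧ R ≤ (2 * (H : ℝ)) ^ k := by
  have hR0 : (0 : ℝ) ≤ R := by linarith
  have hk' : (k : ℝ) ≠ 0 := by
    have : (1 : ℝ) ≤ k := by exact_mod_cast hk
    linarith
  set h : ℝ := R ^ ((1 : ℝ) / k) with hh
  have hhk : h ^ k = R := by
    rw [hh, ← Real.rpow_natCast, ← Real.rpow_mul hR0, one_div_mul_cancel hk', Real.rpow_one]
  have hh1 : 1 ≤ h := Real.one_le_rpow hR (by positivity)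
  have hh0 : 0 ≤ h := by linarith
  refine ⟨⌊h⌋₊, Nat.one_le_floor_iff _ |>.mpr hh1, ?_, ?_⟩
  · rw [← hhk]
    exact pow_le_pow_left₀ (Nat.cast_nonneg _) (Nat.floor_le hh0) k
  · rw [← hhk]
    apply pow_le_pow_left₀ hh0
    have h1 : h < ⌊h⌋₊ + 1 := Nat.lt_floor_add_one h
    have h2 : (1 : ℝ) ≤ ⌊h⌋₊ := by exact_mod_cast (Nat.one_le_floor_iff _ |>.mpr hh1)
    linarith

/-- Logarithms are small. -/
theorem log_pow_le (k : ℕ) (hk : 1 ≤ k) (N : ℝ) (hN : 1 ≤ N) :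
    (1 + Real.log N) ^ k ≤ (1 + 2 * k) ^ k * N ^ (1 / 2 : ℝ) := by
  have hk' : (1 : ℝ) ≤ k := by exact_mod_cast hk
  have h2 := Real.log_le_rpow_div (x := N) (ε := (1 : ℝ) / (2 * k)) (by positivity) (by positivity)
  have h3 : N ^ ((1 : ℝ) / (2 * k)) / ((1 : ℝ) / (2 * k)) = 2 * k * N ^ ((1 : ℝ) / (2 * k)) := by
    field_simp
  have h4 : (1 : ℝ) ≤ N ^ ((1 : ℝ) / (2 * k)) := Real.one_le_rpow hN (by positivity)
  rw [h3] at h2
  have h5 : 1 + Real.log N ≤ (1 + 2 * k) * N ^ ((1 : ℝ) / (2 * k)) := by nlinarith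
  have h6 : 0 ≤ Real.log N := Real.log_nonneg hN
  calc (1 + Real.log N) ^ k ≤ ((1 + 2 * k) * N ^ ((1 : ℝ) / (2 * k))) ^ k := by gcongr
    _ = _ := by
      rw [mul_pow, ← Real.rpow_natCast (N ^ ((1 : ℝ) / (2 * k))), ← Real.rpow_mul (by linarith)]
      congr 2
      field_simp

/-- The hypotheses on the phase on `[A, B]` with `ε N ≤ A`, `B ≤ 2 N`, for even `k`. -/
theorem phase_hy {φ : ℕ → ℝ → ℝ} {d : ℝ} (hφ : Phase φ d) (k : ℕ) (hk : Even k) :
    ∃ X : ℝ, 0 < X ∧ ∀ (ε M : ℝ), 0 < ε → 0 < M → X ≤ ε * M →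
      Hy k (ε * M) (2 * M) ((k.factorial * d / (2 * 2 ^ (k + 1))) / M ^ (k + 1))
        ((2 * k.factorial * d / ε ^ (k + 1)) / M ^ (k + 1)) φ := by
  obtain ⟨hd, ⟨x₀, hx₀⟩, hlim⟩ := hφ
  have hfac : (0 : ℝ) < k.factorial := by exact_mod_cast Nat.factorial_pos k
  have hfac' : (0 : ℝ) < (k + 1).factorial := by exact_mod_cast Nat.factorial_pos (k + 1)
  have h1 := hlim k
  have h2 := hlim (k + 1)
  have e1 : ((-1 : ℝ)) ^ k = 1 := hk.neg_one_pow
  have e2 : ((-1 : ℝ)) ^ (k + 1) = -1 := by rw [pow_succ, e1]; ring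
  rw [e1] at h1
  rw [e2] at h2
  have h3 : ∀ᶠ x : ℝ in atTop, k.factorial * d / 2 ≤ 1 * (x ^ (k + 1) * φ (k + 1) x) :=
    h1.eventually_const_le (by nlinarith [mul_pos hfac hd])
  have h4 : ∀ᶠ x : ℝ in atTop, 1 * (x ^ (k + 1) * φ (k + 1) x) ≤ 2 * (k.factorial * d) :=
    h1.eventually_le_const (by nlinarith [mul_pos hfac hd])
  have h5 : ∀ᶠ x : ℝ in atTop, 0 ≤ -1 * (x ^ (k + 1 + 1) * φ (k + 1 + 1) x) :=
    h2.eventually_const_le (mul_pos hfac' hd)
  obtain ⟨X, hX⟩ := eventually_atTop.1 (h3.and (h4.and h5))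
  refine ⟨max (max X x₀) 1, by positivity, ?_⟩
  intro ε M hε hM hXM
  have hXM1 : X ≤ ε * M := ((le_max_left _ _).trans (le_max_left _ _)).trans hXM
  have hXM2 : x₀ ≤ ε * M := ((le_max_right _ _).trans (le_max_left _ _)).trans hXM
  have hεM : 0 < ε * M := by positivity
  refine ⟨?_, ?_, ?_, ?_⟩
  · intro m _ t ht
    exact hx₀ m t (hXM2.trans ht.1)
  · intro t ht
    have ht0 : 0 < t := lt_of_lt_of_le hεM ht.1
    have hb := (hX t (hXM1.trans ht.1)).1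
    rw [one_mul] at hb
    have h6 : t ^ (k + 1) ≤ (2 * M) ^ (k + 1) := pow_le_pow_left₀ ht0.le ht.2 _
    have hφ0 : 0 ≤ φ (k + 1) t := by
      by_contra hneg
      rw [not_le] at hneg
      have : t ^ (k + 1) * φ (k + 1) t < 0 := mul_neg_of_pos_of_neg (by positivity) hneg
      have : 0 < (k.factorial : ℝ) * d / 2 := by positivity
      linarith
    have h7 : k.factorial * d / 2 ≤ (2 * M) ^ (k + 1) * φ (k + 1) t :=
      hb.trans (mul_le_mul_of_nonneg_right h6 hφ0)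
    rw [mul_pow] at h7
    rw [div_div, div_le_iff₀ (by positivity)]
    nlinarith
  · intro t ht
    have ht0 : 0 < t := lt_of_lt_of_le hεM ht.1
    have hb := (hX t (hXM1.trans ht.1)).2.1
    have hb1 := (hX t (hXM1.trans ht.1)).1
    rw [one_mul] at hb hb1
    have h6 : (ε * M) ^ (k + 1) ≤ t ^ (k + 1) := pow_le_pow_left₀ hεM.le ht.1 _
    have hφ0 : 0 ≤ φ (k + 1) t := by
      by_contra hneg
      rw [not_le] at hneg
      have : t ^ (k + 1) * φ (k + 1) t < 0 := mul_neg_of_pos_of_neg (by positivity) hneg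
      have : 0 < (k.factorial : ℝ) * d / 2 := by positivity
      linarith
    have h7 : (ε * M) ^ (k + 1) * φ (k + 1) t ≤ 2 * (k.factorial * d) :=
      (mul_le_mul_of_nonneg_right h6 hφ0).trans hb
    rw [mul_pow] at h7
    rw [div_div, le_div_iff₀ (by positivity)]
    nlinarith
  · intro t ht
    have ht0 : 0 < t := lt_of_lt_of_le hεM ht.1
    have hb := (hX t (hXM1.trans ht.1)).2.2
    by_contra hpos
    rw [not_le] at hpos
    have : 0 < t ^ (k + 1 + 1) * φ (k + 1 + 1) t := mul_pos (by positivity) hpos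
    linarith

/-- The sum in terms of `e`. -/
theorem sum_eq (φ : ℕ → ℝ → ℝ) (κ : ℝ) (a N : ℕ) :
    ‖∑ n ∈ Ioc a N, Complex.exp (((κ * φ 0 n : ℝ) : ℂ) * Complex.I)‖ =
      ‖∑ n ∈ range (N - a), e (|κ| / (2 * Real.pi) * φ 0 (((a : ℝ) + 1) + (n : ℝ)))‖ := by
  have h1 : ∑ n ∈ Ioc a N, Complex.exp (((κ * φ 0 n : ℝ) : ℂ) * Complex.I) =
      ∑ n ∈ range (N - a), e (κ / (2 * Real.pi) * φ 0 (((a : ℝ) + 1) + (n : ℝ))) := by
    rw [← Finset.Ico_add_one_add_one_eq_Ioc, Finset.sum_Ico_eq_sum_range,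
      show N + 1 - (a + 1) = N - a by omega]
    refine sum_congr rfl fun n _ => ?_
    unfold Pool.Agent.H469R2.NK.e
    congr 3
    push_cast
    field_simp
  rw [h1]
  rcases le_or_gt 0 κ with h | h
  · rw [abs_of_nonneg h]
  · rw [abs_of_neg h, ← norm_sum_neg]
    congr 1
    refine sum_congr rfl fun n _ => ?_
    congr 1
    ring

/-- **Exponential sums with a phase like `d log x`.** -/
theorem expg : S_EXPG := by
  intro φ d hφ ε Q hε
  rcases le_or_gt 1 ε with hε1 | hε1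
  · refine ⟨1, one_pos, 1, one_pos, Eventually.of_forall fun N κ _ _ => ?_⟩
    have h1 : N ≤ ⌊ε * N⌋₊ := by
      apply Nat.le_floor
      nlinarith [(Nat.cast_nonneg N : (0 : ℝ) ≤ N)]
    rw [Ioc_eq_empty_of_le h1]
    simp only [sum_empty, norm_zero]
    positivity
  have hd : 0 < d := hφ.1
  set k : ℕ := 2 * Q + 2 with hk
  have hk1 : 1 ≤ k := by omega
  obtain ⟨X0, hX0, hy0⟩ := phase_hy hφ 0 (by decide)
  obtain ⟨Xk, hXk, hyk⟩ := phase_hy hφ k ⟨Q + 1, by omega⟩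
  have hfac : (0 : ℝ) < k.factorial := by exact_mod_cast Nat.factorial_pos k
  have hfac1 : (1 : ℝ) ≤ k.factorial := by exact_mod_cast Nat.factorial_pos k
  have hπ := Real.pi_pos
  set a0 : ℝ := ((Nat.factorial 0 : ℕ) : ℝ) * d / (2 * 2 ^ (0 + 1)) with ha0
  set b0 : ℝ := 2 * ((Nat.factorial 0 : ℕ) : ℝ) * d / ε ^ (0 + 1) with hb0
  set ak : ℝ := k.factorial * d / (2 * 2 ^ (k + 1)) with hak
  set bk : ℝ := 2 * k.factorial * d / ε ^ (k + 1) with hbk
  have ha0' : 0 < a0 := by rw [ha0]; positivity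
  have hb0' : 0 < b0 := by rw [hb0]; positivity
  have hak' : 0 < ak := by rw [hak]; positivity
  have hbk' : 0 < bk := by rw [hbk]; positivity
  have hb0k : b0 ≤ bk := by
    rw [hb0, hbk]
    simp only [Nat.factorial_zero, Nat.cast_one, zero_add, pow_one, mul_one]
    rw [div_le_div_iff₀ hε (by positivity)]
    have h1 : ε ^ (k + 1) ≤ ε := by
      calc ε ^ (k + 1) = ε ^ k * ε := pow_succ _ _
        _ ≤ 1 * ε := by
          gcongr
          exact pow_le_one₀ hε.le hε1.le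
        _ = ε := one_mul _
    calc 2 * d * ε ^ (k + 1) ≤ 2 * d * ε := by gcongr
      _ = 2 * 1 * d * ε := by ring
      _ ≤ 2 * k.factorial * d * ε := by gcongr
  set c1 : ℝ := min 1 (Real.pi / bk) with hc1
  have hc1' : 0 < c1 := by rw [hc1]; positivity
  have hc11 : c1 ≤ 1 := min_le_left _ _
  have hc12 : c1 ≤ Real.pi / bk := min_le_right _ _
  set K : ℝ := Cq k * (2 / Real.sqrt c1 + 4 * 2 ^ k * (bk / ak) * (1 + 2 * k) ^ k) with hK
  have hCq := Cq_pos k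
  have hK0 : 0 < K := by rw [hK]; positivity
  set δ : ℝ := 1 / (2 * 2 ^ k) with hδ
  have hδ0 : 0 < δ := by rw [hδ]; positivity
  refine ⟨δ, hδ0, 4 * Real.pi / a0 + K ^ ((1 : ℝ) / 2 ^ k), by positivity, ?_⟩
  have hev : ∀ᶠ N : ℕ in atTop, X0 / ε ≤ N ∧ Xk / ε ≤ N ∧ bk / Real.pi ≤ N ∧ (1 : ℝ) ≤ N := by
    have h : ∀ x : ℝ, ∀ᶠ N : ℕ in atTop, x ≤ (N : ℝ) := fun x =>
      tendsto_natCast_atTop_atTop.eventually_ge_atTop x
    exact (h _).and ((h _).and ((h _).and (h _)))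
  filter_upwards [hev] with N hN κ hκ hκQ
  obtain ⟨hN1, hN2, hN3, hN4⟩ := hN
  rw [div_le_iff₀ hε, mul_comm] at hN1 hN2
  rw [div_le_iff₀ hπ] at hN3
  have hN4' : 1 ≤ N := by exact_mod_cast hN4
  have hNpos : (0 : ℝ) < N := by linarith
  have hκ0 : 0 < |κ| := abs_pos.2 hκ
  rw [sum_eq]
  set a : ℕ := ⌊ε * N⌋₊ with ha
  have haN : a ≤ N := by
    have h1 : (a : ℝ) ≤ ε * N := Nat.floor_le (by positivity)
    have h2 : (a : ℝ) ≤ N := by nlinarith
    exact_mod_cast h2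
  have hua : ε * N ≤ (a : ℝ) + 1 := (Nat.lt_floor_add_one _).le
  have haL : (a : ℝ) + 1 + ((N - a : ℕ) : ℝ) ≤ 2 * N := by
    rw [Nat.cast_sub haN]
    linarith
  have hLN : N - a ≤ N := Nat.sub_le _ _
  set θ : ℝ := |κ| / (2 * Real.pi) with hθ
  have hθ0 : 0 < θ := by rw [hθ]; positivity
  have hNnn : 0 ≤ (N : ℝ) / |κ| := by positivity
  have hNδ : 0 ≤ (N : ℝ) ^ (1 - δ) := by positivity
  have hKp : 0 ≤ K ^ ((1 : ℝ) / 2 ^ k) := by positivity
  rcases le_or_gt (2 * (θ * (b0 / (N : ℝ) ^ (0 + 1) * (([] : List ℕ).prod : ℕ)))) 1 with hcase | hcase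
  · -- Kusmin-Landau
    have h1 := SD_le (div_pos ha0' (by positivity)) θ hθ0 (hy0 ε N hε hNpos hN1) ((a : ℝ) + 1) (N - a)
      hua haL [] (by simp) rfl hcase
    have h2 : SD φ θ ((a : ℝ) + 1) (N - a) [] =
        ∑ n ∈ range (N - a), e (θ * φ 0 (((a : ℝ) + 1) + (n : ℝ))) := by
      unfold Pool.Agent.TH915.PW.SD
      simp only [List.sum_nil, Nat.sub_zero]
      rfl
    rw [h2] at h1
    refine h1.trans ?_
    have h3 : 2 / (θ * (a0 / (N : ℝ) ^ (0 + 1)) * (([] : List ℕ).prod : ℕ)) =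
        4 * Real.pi / a0 * (N / |κ|) := by
      simp only [List.prod_nil, Nat.cast_one, zero_add, pow_one, mul_one]
      rw [hθ]
      field_simp
      ring
    rw [h3]
    calc 4 * Real.pi / a0 * (N / |κ|) ≤ 4 * Real.pi / a0 * (N / |κ| + (N : ℝ) ^ (1 - δ)) := by
          gcongr
          linarith
      _ ≤ _ := by
          gcongr
          linarith
  · -- Weyl - van der Corput
    simp only [List.prod_nil, Nat.cast_one, zero_add, pow_one, mul_one] at hcase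
    have hκN : Real.pi * N < b0 * |κ| := by
      rw [hθ] at hcase
      have e1 : 2 * (|κ| / (2 * Real.pi) * (b0 / N)) = b0 * |κ| / (Real.pi * N) := by
        field_simp
      rw [e1, lt_div_iff₀ (by positivity), one_mul] at hcase
      exact hcase
    set R : ℝ := Real.pi * (N : ℝ) ^ (k + 1) / (bk * |κ|) with hR
    have hRlow : Real.pi / bk * (N : ℝ) ^ (Q + 3) ≤ R := by
      rw [hR, div_mul_eq_mul_div, div_le_div_iff₀ hbk' (by positivity)]
      have e1 : (N : ℝ) ^ (k + 1) = (N : ℝ) ^ (Q + 3) * (N : ℝ) ^ Q := by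
        rw [← pow_add]
        congr 1
        omega
      rw [e1]
      calc Real.pi * (N : ℝ) ^ (Q + 3) * (bk * |κ|) ≤
            Real.pi * (N : ℝ) ^ (Q + 3) * (bk * (N : ℝ) ^ Q) := by gcongr
        _ = _ := by ring
    have hR1 : 1 ≤ R := by
      refine le_trans ?_ hRlow
      have h1 : (1 : ℝ) ≤ (N : ℝ) ^ (Q + 2) := one_le_pow₀ hN4
      rw [show Q + 3 = (Q + 2) + 1 by ring, pow_succ, div_mul_eq_mul_div, le_div_iff₀ hbk', one_mul]
      calc bk ≤ N * Real.pi := hN3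
        _ = 1 * (N * Real.pi) := (one_mul _).symm
        _ ≤ (N : ℝ) ^ (Q + 2) * (N * Real.pi) := by gcongr
        _ = _ := by ring
    have hRup : R ≤ (N : ℝ) ^ k := by
      rw [hR, div_le_iff₀ (by positivity), pow_succ]
      calc Real.pi * ((N : ℝ) ^ k * N) = (N : ℝ) ^ k * (Real.pi * N) := by ring
        _ ≤ (N : ℝ) ^ k * (b0 * |κ|) := by gcongr
        _ ≤ (N : ℝ) ^ k * (bk * |κ|) := by gcongr
    obtain ⟨H, hH1, hH2, hH3⟩ := exists_root k hk1 R hR1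
    have hHN : H ≤ N := by
      have h1 : (H : ℝ) ^ k ≤ (N : ℝ) ^ k := hH2.trans hRup
      have h2 : (H : ℝ) ≤ N := le_of_pow_le_pow_left₀ (by omega) hNpos.le h1
      exact_mod_cast h2
    have hH1' : (1 : ℝ) ≤ H := by exact_mod_cast hH1
    have hHN' : (H : ℝ) ≤ N := by exact_mod_cast hHN
    have hcond : 2 * (θ * (bk / (N : ℝ) ^ (k + 1) * (H : ℝ) ^ k)) ≤ 1 := by
      calc 2 * (θ * (bk / (N : ℝ) ^ (k + 1) * (H : ℝ) ^ k)) ≤
            2 * (θ * (bk / (N : ℝ) ^ (k + 1) * R)) := by gcongr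
        _ = 1 := by
            rw [hθ, hR]
            field_simp
    have hb := exp_bound' (div_pos hak' (by positivity)) (div_pos hbk' (by positivity)).le θ hθ0
      (hyk ε N hε hNpos hN2) ((a : ℝ) + 1) N (N - a) H hN4' hLN hua haL hH1 hHN hcond
    -- the first term
    have h4H : c1 * N ≤ (2 * (H : ℝ)) ^ 2 := by
      have h1 : (c1 * N) ^ (Q + 1) ≤ ((2 * (H : ℝ)) ^ 2) ^ (Q + 1) := by
        rw [← pow_mul, show 2 * (Q + 1) = k by omega]
        refine le_trans ?_ hH3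
        refine le_trans ?_ hRlow
        rw [mul_pow]
        have e1 : c1 ^ (Q + 1) ≤ Real.pi / bk := by
          refine le_trans ?_ hc12
          calc c1 ^ (Q + 1) ≤ c1 ^ 1 := pow_le_pow_of_le_one hc1'.le hc11 (by omega)
            _ = c1 := pow_one _
        have e2 : (N : ℝ) ^ (Q + 1) ≤ (N : ℝ) ^ (Q + 3) := pow_le_pow_right₀ hN4 (by omega)
        gcongr
      exact le_of_pow_le_pow_left₀ (by omega) (by positivity) h1
    have hterm1 : 1 / (H : ℝ) ≤ 2 / Real.sqrt c1 * (N : ℝ) ^ (-(1 / 2) : ℝ) := by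
      have h1 : Real.sqrt (c1 * N) ≤ 2 * H := by
        rw [← Real.sqrt_sq (by positivity : (0 : ℝ) ≤ 2 * H)]
        exact Real.sqrt_le_sqrt h4H
      rw [Real.sqrt_mul hc1'.le] at h1
      have h2 : 0 < Real.sqrt c1 := Real.sqrt_pos.2 hc1'
      have h3 : 0 < Real.sqrt (N : ℝ) := Real.sqrt_pos.2 hNpos
      rw [Real.rpow_neg hNpos.le, ← Real.sqrt_eq_rpow, ← div_eq_mul_inv, div_div,
        div_le_div_iff₀ (by positivity) (by positivity), one_mul]
      exact h1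
    -- the second term
    have hterm2 : 2 / (θ * (ak / (N : ℝ) ^ (k + 1))) / N * ((∑ l ∈ Ico 1 H, (1 : ℝ) / l) / H) ^ k ≤
        4 * 2 ^ k * (bk / ak) * (1 + 2 * k) ^ k * (N : ℝ) ^ (-(1 / 2) : ℝ) := by
      have hs0 : 0 ≤ ∑ l ∈ Ico 1 H, (1 : ℝ) / l := sum_nonneg fun _ _ => by positivity
      have hlog : ∑ l ∈ Ico 1 H, (1 : ℝ) / l ≤ 1 + Real.log N := by
        refine (harm_le H).trans ?_
        have := Real.log_le_log (by positivity) hHN'
        linarith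
      have hRpos : 0 < R := by linarith
      have h1 : ((∑ l ∈ Ico 1 H, (1 : ℝ) / l) / H) ^ k ≤ (1 + Real.log N) ^ k * 2 ^ k / R := by
        rw [div_pow, div_le_div_iff₀ (by positivity) hRpos]
        calc (∑ l ∈ Ico 1 H, (1 : ℝ) / l) ^ k * R ≤ (1 + Real.log N) ^ k * (2 * (H : ℝ)) ^ k := by
              gcongr
          _ = _ := by rw [mul_pow]; ring
      have h2 := log_pow_le k hk1 N hN4
      have e3 : (N : ℝ) ^ (-(1 / 2) : ℝ) = (N : ℝ) ^ (1 / 2 : ℝ) / N := by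
        rw [← Real.rpow_sub_one hNpos.ne']
        norm_num
      calc 2 / (θ * (ak / (N : ℝ) ^ (k + 1))) / N * ((∑ l ∈ Ico 1 H, (1 : ℝ) / l) / H) ^ k ≤
            2 / (θ * (ak / (N : ℝ) ^ (k + 1))) / N *
              (((1 + 2 * k) ^ k * (N : ℝ) ^ (1 / 2 : ℝ)) * 2 ^ k / R) := by
            gcongr
            refine h1.trans ?_
            gcongr
        _ = _ := by
            rw [hθ, hR, e3]
            field_simp
            ring
    have hfin : (‖∑ n ∈ range (N - a), e (θ * φ 0 (((a : ℝ) + 1) + (n : ℝ)))‖ / N) ^ (2 ^ k) ≤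
        K * (N : ℝ) ^ (-(1 / 2) : ℝ) := by
      refine hb.trans ?_
      calc _ ≤ Cq k * (2 / Real.sqrt c1 * (N : ℝ) ^ (-(1 / 2) : ℝ) +
            4 * 2 ^ k * (bk / ak) * (1 + 2 * k) ^ k * (N : ℝ) ^ (-(1 / 2) : ℝ)) := by
            gcongr
        _ = _ := by rw [hK]; ring
    set S : ℝ := ‖∑ n ∈ range (N - a), e (θ * φ 0 (((a : ℝ) + 1) + (n : ℝ)))‖ with hS
    have hS0 : 0 ≤ S := norm_nonneg _
    have hroot : S / N ≤ K ^ ((1 : ℝ) / 2 ^ k) * (N : ℝ) ^ (-δ) := by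
      have h1 : (S / N) = ((S / N) ^ (2 ^ k)) ^ ((1 : ℝ) / 2 ^ k) := by
        rw [← Real.rpow_natCast, ← Real.rpow_mul (by positivity)]
        push_cast
        rw [mul_one_div_cancel (by positivity), Real.rpow_one]
      rw [h1]
      calc _ ≤ (K * (N : ℝ) ^ (-(1 / 2) : ℝ)) ^ ((1 : ℝ) / 2 ^ k) := by gcongr
        _ = K ^ ((1 : ℝ) / 2 ^ k) * (N : ℝ) ^ (-(1 / 2) * (1 / 2 ^ k) : ℝ) := by
            rw [Real.mul_rpow hK0.le (by positivity), ← Real.rpow_mul (by positivity)]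
        _ = _ := by
            congr 2
            rw [hδ]
            field_simp
    rw [div_le_iff₀ hNpos] at hroot
    calc S ≤ K ^ ((1 : ℝ) / 2 ^ k) * (N : ℝ) ^ (-δ) * N := hroot
      _ = K ^ ((1 : ℝ) / 2 ^ k) * (N : ℝ) ^ (1 - δ) := by
        rw [mul_assoc, sub_eq_neg_add, Real.rpow_add hNpos, Real.rpow_one]
      _ ≤ K ^ ((1 : ℝ) / 2 ^ k) * (N / |κ| + (N : ℝ) ^ (1 - δ)) := by
        gcongr
        linarith
      _ ≤ _ := by
        gcongr
        have : 0 ≤ 4 * Real.pi / a0 := by positivity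
        linarith

end Pool.Agent.Y614.MC
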